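import Pool.Agent.Lib.TG_h4.Dede

/-!
# The norm modulo the maximal ideal of a discrete valuation ring

`S` is a Dedekind domain, finite over the discrete valuation ring `R`. The residue of the norm of
`a` is the product of the norms of the residues of `a`, with multiplicities.
-/

set_option autoImplicit false

namespace Pool.Agent.TGh5

open IsDedekindDomain IsLocalRing

section Lin

/-- Determinants of endomorphisms induced on isomorphic quotients. -/
theorem det_eq_of_surj {R κ S X Y : Type*} [CommRing R] [Field κ] [Algebra R κ]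
    (hs : Function.Surjective (algebraMap R κ)) [AddCommGroup S] [Module R S]
    [AddCommGroup X] [Module R X] [Module κ X] [IsScalarTower R κ X]
    [AddCommGroup Y] [Module R Y] [Module κ Y] [IsScalarTower R κ Y]
    (p : S →ₗ[R] X) (q : S →ₗ[R] Y) (hp : Function.Surjective p) (hq : Function.Surjective q)
    (hk : LinearMap.ker p = LinearMap.ker q) (A : S → S) (g : X →ₗ[κ] X) (h : Y →ₗ[κ] Y)
    (hg : ∀ s, g (p s) = p (A s)) (hh : ∀ s, h (q s) = q (A s)) :
    LinearMap.det g = LinearMap.det h := by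
  let e₀ : X ≃ₗ[R] Y := (p.quotKerEquivOfSurjective hp).symm ≪≫ₗ
    (Submodule.quotEquivOfEq _ _ hk) ≪≫ₗ (q.quotKerEquivOfSurjective hq)
  have he₀ : ∀ s, e₀ (p s) = q s := by
    intro s
    have h1 : (p.quotKerEquivOfSurjective hp).symm (p s) = Submodule.Quotient.mk s := by
      rw [LinearEquiv.symm_apply_eq]
      rfl
    change (q.quotKerEquivOfSurjective hq) (Submodule.quotEquivOfEq _ _ hk
      ((p.quotKerEquivOfSurjective hp).symm (p s))) = q s
    rw [h1]
    rfl
  let e : X ≃ₗ[κ] Y := e₀.extendScalarsOfSurjective hs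
  have he : ∀ s, e (p s) = q s := he₀
  rw [← LinearMap.det_conj g e]
  congr 1
  ext y
  obtain ⟨s, rfl⟩ := hq y
  have h1 : e.symm (q s) = p s := by
    rw [LinearEquiv.symm_apply_eq, he]
  change e (g (e.symm (q s))) = h (q s)
  rw [h1, hg, he, hh]

end Lin

section Main

variable {R κ S : Type*} [CommRing R] [Field κ] [Algebra R κ] [CommRing S] [IsDedekindDomain S]
  [Algebra R S] {I₀ : Ideal S} [Algebra κ (S ⧸ I₀)] [IsScalarTower R κ (S ⧸ I₀)]

/-- The image of the ideal `I` in `S / I₀`, as a subspace. -/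
def W (κ : Type*) [Field κ] {S : Type*} [CommRing S] (I₀ : Ideal S) [Algebra κ (S ⧸ I₀)]
    (I : Ideal S) : Submodule κ (S ⧸ I₀) :=
  (Ideal.map (Ideal.Quotient.mk I₀) I).restrictScalars κ

omit [IsDedekindDomain S] in
theorem mk_mem_W {I : Ideal S} (hI : I₀ ≤ I) {s : S} :
    (Ideal.Quotient.mk I₀ s) ∈ W κ I₀ I ↔ s ∈ I := by
  change Ideal.Quotient.mk I₀ s ∈ Ideal.map (Ideal.Quotient.mk I₀) I ↔ _
  rw [Ideal.mem_map_iff_of_surjective _ Ideal.Quotient.mk_surjective]
  constructor
  · rintro ⟨t, ht, hts⟩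
    rw [Ideal.Quotient.eq] at hts
    have h1 : s = t - (t - s) := by ring
    rw [h1]
    exact I.sub_mem ht (hI hts)
  · intro h
    exact ⟨s, h, rfl⟩

/-- Multiplication by `a`. -/
noncomputable def mul (κ : Type*) [Field κ] {S : Type*} [CommRing S] (I₀ : Ideal S)
    [Algebra κ (S ⧸ I₀)] (a : S) : (S ⧸ I₀) →ₗ[κ] (S ⧸ I₀) :=
  Algebra.lmul κ (S ⧸ I₀) (Ideal.Quotient.mk I₀ a)

omit [IsDedekindDomain S] in
theorem mul_mk (a s : S) : mul κ I₀ a (Ideal.Quotient.mk I₀ s) = Ideal.Quotient.mk I₀ (a * s) := by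
  rw [map_mul]
  rfl

omit [IsDedekindDomain S] in
theorem W_le_comap (a : S) (I : Ideal S) : W κ I₀ I ≤ (W κ I₀ I).comap (mul κ I₀ a) := by
  intro x hx
  exact Ideal.mul_mem_left _ _ hx

/-- The determinant of the multiplication by `a` on `S / I`. -/
noncomputable def dq (κ : Type*) [Field κ] {S : Type*} [CommRing S] (I₀ : Ideal S)
    [Algebra κ (S ⧸ I₀)] (a : S) (I : Ideal S) : κ :=
  LinearMap.det ((W κ I₀ I).mapQ (W κ I₀ I) (mul κ I₀ a)
    (fun _ hx => Ideal.mul_mem_left _ _ hx))

/-- The class of `α * s` in `(S / I₀) / U`, for `α ∈ J`. -/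
noncomputable def pT (R : Type*) [CommRing R] [Algebra R κ] [Algebra R S]
    [IsScalarTower R κ (S ⧸ I₀)] {U T : Submodule κ (S ⧸ I₀)} (α : S)
    (h : ∀ s : S, Ideal.Quotient.mk I₀ (α * s) ∈ T) : S →ₗ[R] (T.map U.mkQ) where
  toFun s := ⟨U.mkQ (Ideal.Quotient.mk I₀ (α * s)), Submodule.mem_map_of_mem (h s)⟩
  map_add' s t := by
    apply Subtype.ext
    change U.mkQ _ = U.mkQ _ + U.mkQ _
    rw [← map_add, ← map_add, mul_add]
  map_smul' r s := by
    apply Subtype.ext
    change U.mkQ _ = r • U.mkQ _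
    rw [Algebra.mul_smul_comm]
    rfl

theorem dq_step (hs : Function.Surjective (algebraMap R κ)) [FiniteDimensional κ (S ⧸ I₀)]
    (a : S) (J P : Ideal S) (hJ : J ≠ ⊥) [hP : P.IsMaximal] (h0 : I₀ ≤ J * P)
    [Algebra κ (S ⧸ P)] [IsScalarTower R κ (S ⧸ P)] :
    dq κ I₀ a (J * P) = Algebra.norm κ (Ideal.Quotient.mk P a) * dq κ I₀ a J := by
  obtain ⟨α, hα, hα', hsup⟩ := Pool.Agent.TGh4.quot_mul_aux J P hJ
  have hJP : J * P ≤ J := Ideal.mul_le_left
  have h0J : I₀ ≤ J := h0.trans hJP
  set U := W κ I₀ (J * P) with hU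
  set T := W κ I₀ J with hT
  have hUT : U ≤ T := Ideal.map_mono hJP
  have hUf : U ≤ U.comap (mul κ I₀ a) := W_le_comap a _
  have hTf : T ≤ T.comap (mul κ I₀ a) := W_le_comap a _
  set fU := U.mapQ U (mul κ I₀ a) hUf with hfU
  set T' := T.map U.mkQ with hT'
  have hT'f : T' ≤ T'.comap fU := by
    rintro _ ⟨t, ht, rfl⟩
    exact ⟨mul κ I₀ a t, hTf ht, rfl⟩
  have key := LinearMap.det_eq_det_mul_det T' fU hT'f
  change LinearMap.det fU = _
  rw [key]
  congr 1
  · rw [Algebra.norm_apply]
    refine det_eq_of_surj hs (pT R (U := U) (T := T) α fun s => ?_)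
      (Ideal.Quotient.mkₐ R P).toLinearMap ?_ Ideal.Quotient.mk_surjective ?_ (fun s => a * s)
      _ _ ?_ ?_
    · exact (mk_mem_W h0J).2 (J.mul_mem_right s hα)
    · rintro ⟨_, t, ht, rfl⟩
      obtain ⟨j, rfl⟩ := Ideal.Quotient.mk_surjective t
      have hj : j ∈ J := (mk_mem_W h0J).1 ht
      rw [← hsup] at hj
      obtain ⟨y, hy, z, hz, rfl⟩ := Submodule.mem_sup.1 hj
      obtain ⟨c, rfl⟩ := Ideal.mem_span_singleton'.1 hy
      refine ⟨c, ?_⟩
      apply Subtype.ext
      change U.mkQ (Ideal.Quotient.mk I₀ (α * c)) = U.mkQ (Ideal.Quotient.mk I₀ (c * α + z))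
      rw [map_add, map_add, mul_comm c α]
      have h1 : U.mkQ (Ideal.Quotient.mk I₀ z) = 0 := by
        rw [Submodule.mkQ_apply, Submodule.Quotient.mk_eq_zero]
        exact (mk_mem_W h0).2 hz
      rw [h1, add_zero]
    · ext s
      rw [LinearMap.mem_ker, LinearMap.mem_ker]
      have h1 : pT R (U := U) (T := T) α (fun s => (mk_mem_W h0J).2 (J.mul_mem_right s hα)) s = 0 ↔
          α * s ∈ J * P := by
        rw [← mk_mem_W (κ := κ) h0, ← Submodule.Quotient.mk_eq_zero]
        exact Subtype.ext_iff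
      have h2 : (Ideal.Quotient.mkₐ R P).toLinearMap s = 0 ↔ s ∈ P :=
        Ideal.Quotient.eq_zero_iff_mem
      rw [h1, h2]
      constructor
      · intro h3
        by_contra hb
        obtain ⟨c, q, hq, hc⟩ := hP.exists_inv hb
        apply hα'
        have h4 : α = c * (α * s) + α * q := by
          calc α = α * (c * s + q) := by rw [hc, mul_one]
            _ = _ := by ring
        rw [h4]
        exact add_mem (Ideal.mul_mem_left _ _ h3) (Ideal.mul_mem_mul hα hq)
      · intro h3
        exact Ideal.mul_mem_mul hα h3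
    · intro s
      apply Subtype.ext
      change U.mkQ (mul κ I₀ a (Ideal.Quotient.mk I₀ (α * s))) =
        U.mkQ (Ideal.Quotient.mk I₀ (α * (a * s)))
      rw [mul_mk]
      congr 2
      ring
    · intro s
      exact (map_mul (Ideal.Quotient.mk P) a s).symm
  · refine det_eq_of_surj hs
      ((T'.mkQ.restrictScalars R) ∘ₗ (U.mkQ.restrictScalars R) ∘ₗ
        (Ideal.Quotient.mkₐ R I₀).toLinearMap)
      ((T.mkQ.restrictScalars R) ∘ₗ (Ideal.Quotient.mkₐ R I₀).toLinearMap) ?_ ?_ ?_
      (fun s => a * s) _ _ ?_ ?_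
    · intro x
      obtain ⟨y, rfl⟩ := Submodule.mkQ_surjective _ x
      obtain ⟨z, rfl⟩ := Submodule.mkQ_surjective _ y
      obtain ⟨s, rfl⟩ := Ideal.Quotient.mk_surjective z
      exact ⟨s, rfl⟩
    · intro x
      obtain ⟨z, rfl⟩ := Submodule.mkQ_surjective _ x
      obtain ⟨s, rfl⟩ := Ideal.Quotient.mk_surjective z
      exact ⟨s, rfl⟩
    · ext s
      rw [LinearMap.mem_ker, LinearMap.mem_ker]
      change (Submodule.Quotient.mk (U.mkQ (Ideal.Quotient.mk I₀ s)) : _ ⧸ T') = 0 ↔
        (Submodule.Quotient.mk (Ideal.Quotient.mk I₀ s) : _ ⧸ T) = 0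
      rw [Submodule.Quotient.mk_eq_zero, Submodule.Quotient.mk_eq_zero]
      constructor
      · rintro ⟨t, ht, hts⟩
        have h1 : t - Ideal.Quotient.mk I₀ s ∈ U := (Submodule.Quotient.eq U).1 hts
        have h2 : Ideal.Quotient.mk I₀ s = t - (t - Ideal.Quotient.mk I₀ s) := by ring
        rw [h2]
        exact T.sub_mem ht (hUT h1)
      · intro h1
        exact ⟨_, h1, rfl⟩
    · intro s
      change T'.mkQ (U.mkQ (mul κ I₀ a (Ideal.Quotient.mk I₀ s))) =
        T'.mkQ (U.mkQ (Ideal.Quotient.mk I₀ (a * s)))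
      rw [mul_mk]
    · intro s
      change T.mkQ (mul κ I₀ a (Ideal.Quotient.mk I₀ s)) = T.mkQ (Ideal.Quotient.mk I₀ (a * s))
      rw [mul_mk]

omit [IsDedekindDomain S] in
theorem dq_top (a : S) : dq κ I₀ a ⊤ = 1 := by
  have h1 : W κ I₀ ⊤ = ⊤ := by
    rw [eq_top_iff]
    intro x _
    obtain ⟨s, rfl⟩ := Ideal.Quotient.mk_surjective x
    exact (mk_mem_W le_top).2 trivial
  have h2 : Subsingleton ((S ⧸ I₀) ⧸ W κ I₀ ⊤) := Submodule.Quotient.subsingleton_iff.2 h1
  unfold dq
  exact LinearMap.det_eq_one_of_subsingleton _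

omit [IsDedekindDomain S] in
theorem dq_self (hs : Function.Surjective (algebraMap R κ)) (a : S) :
    dq κ I₀ a I₀ = Algebra.norm κ (Ideal.Quotient.mk I₀ a) := by
  rw [Algebra.norm_apply]
  refine det_eq_of_surj hs
    (((W κ I₀ I₀).mkQ.restrictScalars R) ∘ₗ (Ideal.Quotient.mkₐ R I₀).toLinearMap)
    (Ideal.Quotient.mkₐ R I₀).toLinearMap ?_ Ideal.Quotient.mk_surjective ?_
    (fun s => a * s) _ _ ?_ ?_
  · intro x
    obtain ⟨z, rfl⟩ := Submodule.mkQ_surjective _ x
    obtain ⟨s, rfl⟩ := Ideal.Quotient.mk_surjective z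
    exact ⟨s, rfl⟩
  · ext s
    rw [LinearMap.mem_ker, LinearMap.mem_ker]
    change (Submodule.Quotient.mk (Ideal.Quotient.mk I₀ s) : _ ⧸ W κ I₀ I₀) = 0 ↔
      Ideal.Quotient.mk I₀ s = 0
    rw [Submodule.Quotient.mk_eq_zero, mk_mem_W le_rfl, Ideal.Quotient.eq_zero_iff_mem]
  · intro s
    change (W κ I₀ I₀).mkQ (mul κ I₀ a (Ideal.Quotient.mk I₀ s)) =
      (W κ I₀ I₀).mkQ (Ideal.Quotient.mk I₀ (a * s))
    rw [mul_mk]
  · intro s
    exact (map_mul (Ideal.Quotient.mk I₀) a s).symm

theorem dq_prod (hs : Function.Surjective (algebraMap R κ)) [FiniteDimensional κ (S ⧸ I₀)]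
    (a : S) [∀ v : HeightOneSpectrum S, Algebra κ (S ⧸ v.asIdeal)]
    [∀ v : HeightOneSpectrum S, IsScalarTower R κ (S ⧸ v.asIdeal)] (I : Ideal S) (hI : I ≠ ⊥)
    (h0 : I₀ ≤ I) :
    {v : HeightOneSpectrum S | multiplicity v.asIdeal I ≠ 0}.Finite ∧
      dq κ I₀ a I = ∏ᶠ v : HeightOneSpectrum S,
        (Algebra.norm κ (Ideal.Quotient.mk v.asIdeal a)) ^ multiplicity v.asIdeal I := by
  classical
  induction I using UniqueFactorizationMonoid.induction_on_prime with
  | h₁ => exact absurd rfl hI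
  | h₂ x hx =>
    have h1 : x = ⊤ := by
      rw [Ideal.isUnit_iff] at hx
      exact hx
    subst h1
    have h2 : ∀ v : HeightOneSpectrum S, multiplicity v.asIdeal (⊤ : Ideal S) = 0 := by
      intro v
      rw [← Ideal.one_eq_top]
      exact multiplicity_of_one_right v.prime.not_isUnit
    refine ⟨?_, ?_⟩
    · simp [h2]
    · rw [dq_top]
      simp [h2]
  | h₃ J P hJ hP ih =>
    have hP0 : P ≠ ⊥ := hP.ne_zero
    have hPm : P.IsMaximal := (Ideal.isPrime_of_prime hP).isMaximal hP0
    rw [mul_comm P J] at h0 ⊢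
    obtain ⟨h2, h3⟩ := ih hJ (h0.trans Ideal.mul_le_left)
    let v : HeightOneSpectrum S := ⟨P, Ideal.isPrime_of_prime hP, hP0⟩
    let _ : Algebra κ (S ⧸ P) := inferInstanceAs (Algebra κ (S ⧸ v.asIdeal))
    have _ : IsScalarTower R κ (S ⧸ P) := inferInstanceAs (IsScalarTower R κ (S ⧸ v.asIdeal))
    have h5 := dq_step hs a J P hJ h0
    have h6 : ∀ w : HeightOneSpectrum S, multiplicity w.asIdeal (J * P) =
        multiplicity w.asIdeal J + if w = v then 1 else 0 := by
      intro w
      have hfin : FiniteMultiplicity w.asIdeal (J * P) :=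
        FiniteMultiplicity.of_prime_left w.prime (mul_ne_zero hJ hP0)
      rw [multiplicity_mul w.prime hfin]
      congr 1
      split_ifs with hw
      · rw [hw]
        exact multiplicity_self
      · rw [multiplicity_eq_zero]
        intro hd
        apply hw
        ext1
        exact ((associated_iff_eq).1 (w.prime.associated_of_dvd hP hd))
    have h7 : {w : HeightOneSpectrum S | multiplicity w.asIdeal (J * P) ≠ 0} ⊆
        {w : HeightOneSpectrum S | multiplicity w.asIdeal J ≠ 0} ∪ {v} := by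
      intro w hw
      rw [Set.mem_ofPred_eq, h6] at hw
      by_cases hwv : w = v
      · exact Or.inr hwv
      · rw [if_neg hwv, add_zero] at hw
        exact Or.inl hw
    refine ⟨(h2.union (Set.finite_singleton v)).subset h7, ?_⟩
    rw [h5, h3, mul_comm]
    have h8 : (fun w : HeightOneSpectrum S =>
        (Algebra.norm κ (Ideal.Quotient.mk w.asIdeal a)) ^ multiplicity w.asIdeal (J * P)) =
        fun w => (Algebra.norm κ (Ideal.Quotient.mk w.asIdeal a)) ^ multiplicity w.asIdeal J *
          (Algebra.norm κ (Ideal.Quotient.mk w.asIdeal a)) ^ (if w = v then 1 else 0) := by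
      funext w
      rw [h6, pow_add]
    rw [h8, finprod_mul_distrib]
    · congr 1
      rw [finprod_eq_single _ v]
      · rw [if_pos rfl, pow_one]
      · intro w hw
        rw [if_neg hw, pow_zero]
    · refine h2.subset ?_
      intro w hw
      rw [Function.mem_mulSupport] at hw
      intro h
      rw [h, pow_zero] at hw
      exact hw rfl
    · refine (Set.finite_singleton v).subset ?_
      intro w hw
      rw [Function.mem_mulSupport] at hw
      by_contra h
      have h' : w ≠ v := h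
      rw [if_neg h', pow_zero] at hw
      exact hw rfl

end Main

section Local

attribute [local instance] Ideal.Quotient.field

/-- The norm commutes with the reduction modulo the maximal ideal. -/
theorem norm_quotient_mk {R S : Type*} [CommRing R] [IsLocalRing R] [CommRing S] [Algebra R S]
    [Module.Free R S] [Module.Finite R S] (a : S) :
    Algebra.norm (R ⧸ maximalIdeal R)
      (Ideal.Quotient.mk (Ideal.map (algebraMap R S) (maximalIdeal R)) a) =
      Ideal.Quotient.mk (maximalIdeal R) (Algebra.norm R a) := by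
  classical
  let b : Module.Basis (Module.Free.ChooseBasisIndex R S) R S := Module.Free.chooseBasis R S
  rw [Algebra.norm_eq_matrix_det b, Algebra.norm_eq_matrix_det (basisQuotient b),
    RingHom.map_det]
  congr 1
  ext i j
  simp only [Algebra.leftMulMatrix_apply, Algebra.coe_lmul_eq_mul, LinearMap.toMatrix_apply,
    basisQuotient_apply, LinearMap.mul_apply', RingHom.mapMatrix_apply, Matrix.map_apply,
    ← map_mul, basisQuotient_repr]

/-- The residue of the norm. -/
theorem norm_residue {R S : Type*} [CommRing R] [IsDomain R] [IsDiscreteValuationRing R]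
    [CommRing S] [IsDedekindDomain S] [Algebra R S] [Module.Finite R S] [FaithfulSMul R S]
    [∀ v : HeightOneSpectrum S, Algebra (ResidueField R) (S ⧸ v.asIdeal)]
    [∀ v : HeightOneSpectrum S, IsScalarTower R (ResidueField R) (S ⧸ v.asIdeal)] (a : S) :
    {v : HeightOneSpectrum S | multiplicity v.asIdeal
      (Ideal.map (algebraMap R S) (maximalIdeal R)) ≠ 0}.Finite ∧
    residue R (Algebra.norm R a) = ∏ᶠ v : HeightOneSpectrum S,
      (Algebra.norm (ResidueField R) (Ideal.Quotient.mk v.asIdeal a)) ^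
        (multiplicity v.asIdeal (Ideal.map (algebraMap R S) (maximalIdeal R))) := by
  have htf : Module.IsTorsionFree R S := Module.isTorsionFree_iff_algebraMap_injective.2
    (FaithfulSMul.algebraMap_injective R S)
  have hfree : Module.Free R S := Module.free_of_finite_type_torsion_free'
  let _ : Algebra (ResidueField R) (S ⧸ Ideal.map (algebraMap R S) (maximalIdeal R)) :=
    inferInstanceAs (Algebra (R ⧸ maximalIdeal R) (S ⧸ Ideal.map (algebraMap R S)
      (maximalIdeal R)))
  have htow : IsScalarTower R (ResidueField R)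
      (S ⧸ Ideal.map (algebraMap R S) (maximalIdeal R)) :=
    inferInstanceAs (IsScalarTower R (R ⧸ maximalIdeal R)
      (S ⧸ Ideal.map (algebraMap R S) (maximalIdeal R)))
  have hfin : Module.Finite (ResidueField R)
      (S ⧸ Ideal.map (algebraMap R S) (maximalIdeal R)) :=
    Module.Finite.of_restrictScalars_finite R _ _
  have hs : Function.Surjective (algebraMap R (ResidueField R)) := Ideal.Quotient.mk_surjective
  have hbot : Ideal.map (algebraMap R S) (maximalIdeal R) ≠ ⊥ := by
    rw [Ne, Ideal.map_eq_bot_iff_of_injective (FaithfulSMul.algebraMap_injective R S)]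
    exact IsDiscreteValuationRing.not_a_field R
  obtain ⟨h1, h2⟩ := dq_prod hs a _ hbot le_rfl
  refine ⟨h1, ?_⟩
  rw [← h2, dq_self hs]
  exact (norm_quotient_mk a).symm

end Local

end Pool.Agent.TGh5
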